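import Pool.Agent.CayNR.LocalCayley
import Pool.Agent.CayNR.Disjoint

set_option autoImplicit false

/-!
# MP_e379d7_co: nonrepetitive colourings of blow-ups `G[K_k]`

Question Q1 asks for a bound `π(G[K_k]) ≤ k * f (Δ(G))`.  We prove it (in the strong form that
`G` has a colouring with boundedly many colours in which every repetitively coloured stroll is
boring) for

* all finite graphs of maximum degree `Δ` whose cycles of length less than `g` are pairwise
  vertex-disjoint, where `|V| ≤ D ^ g` (in particular for graphs of girth at least `g`),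
* all finite subgraphs of Cayley graphs, and more generally all finite graphs with at most
  `D ^ g` vertices which look like a Cayley graph up to scale `g`,
* all subgraphs of strong products of boundedly many such graphs.
-/

namespace Pool.Agent.Results.MP_e379d7_co.BoringColourings

open Pool.Agent.CayNR

theorem result.{u, v} :
    -- (1) a boring colouring with `N` colours gives nonrepetitive colourings of all blow-ups
    (∀ (V : Type u) (G : SimpleGraph V) (N : ℕ), HasBoringColouring G N → ∀ k : ℕ,
      ∃ c : V × Fin k → Fin (k * N),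
        ∀ (a b : V × Fin k)
          (p : (SimpleGraph.fromRel (fun x y : V × Fin k => G.Adj x.1 y.1 ∨ x.1 = y.1)).Walk a b),
          p.IsPath → ∀ t : ℕ, 0 < t → p.support.length = 2 * t →
            (p.support.map c).take t ≠ (p.support.map c).drop t) ∧
    -- (2) graphs whose short cycles are pairwise disjoint
    (∀ (V : Type u) [Fintype V] (G : SimpleGraph V) (Δ D g : ℕ),
      (∀ x, (G.neighborSet x).ncard ≤ Δ) → 0 < D → Fintype.card V ≤ D ^ g →
      ShortCyclesDisjoint G g → HasBoringColouring G (boundC Δ D)) ∧
    -- (3) graphs which are locally Cayley graphs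
    (∀ (Γ : Type v) [Group Γ] (S : Finset Γ) (V : Type u) [Fintype V] (G : SimpleGraph V)
      (lam : V → V → Γ) (Δ D g : ℕ), (∀ x y, G.Adj x y → lam x y ∈ S) →
      (∀ x, (G.neighborSet x).ncard ≤ Δ) → 0 < D → Fintype.card V ≤ D ^ g →
      (∀ m < g, ∀ x : ℕ → V, (∀ i < m, G.Adj (x i) (x (i + 1))) →
        (x m = x 0 ↔ labelProd lam x m = 1)) →
      HasBoringColouring G (boundL Δ S.card D)) ∧
    -- (4) subgraphs of Cayley graphs
    (∀ (Γ : Type v) [Group Γ] (S : Finset Γ) (V : Type u) [Fintype V] (G : SimpleGraph V)
      (φ : V → Γ), Function.Injective φ → (∀ x y, G.Adj x y → (φ x)⁻¹ * φ y ∈ S) →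
      HasBoringColouring G (boundL S.card S.card 2)) ∧
    -- (5) subgraphs of strong products
    (∀ (ι : Type) [Fintype ι] (V : Type u) (W : ι → Type u) (G : SimpleGraph V)
      (H : (j : ι) → SimpleGraph (W j)) (N : ι → ℕ) (f : (j : ι) → V → W j),
      (∀ x y, (∀ j, f j x = f j y) → x = y) →
      (∀ x y, G.Adj x y → ∀ j, f j x = f j y ∨ (H j).Adj (f j x) (f j y)) →
      (∀ j, HasBoringColouring (H j) (N j)) → HasBoringColouring G (∏ j, N j)) := by
  refine ⟨?_, ?_, ?_, ?_, ?_⟩
  · intro V G N hG k
    exact blowup G N hG k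
  · intro V _ G Δ D g hΔ hD hV hd
    exact disjointCycles G g D Δ hD hV hΔ hd
  · intro Γ _ S V _ G lam Δ D g hS hΔ hD hV hloc
    exact localCayley S G lam hS g D Δ hD hV hΔ hloc
  · intro Γ _ S V _ G φ hφ hadj
    exact cayleySubgraph S G φ hφ hadj
  · intro ι _ V W G H N f hf hadj hH
    exact boring_prod G W H N f hf hadj hH

end Pool.Agent.Results.MP_e379d7_co.BoringColourings
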