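import Pool.Agent.LSN.Final

set_option autoImplicit false

/-!
# MP_e379d7_co: blow-ups `G[K_k]`, a bound which depends on `Δ(G)` and on log* of `|V(G)|`

All definitions used in the statement are in this file.
-/

namespace Pool.Agent.Results.MP_e379d7_co.LogStar

/-- `G` has a colouring with `N` colours such that a stroll `x 0, ..., x (2 t - 1)` (consecutive
vertices are equal or adjacent) with `c (x i) = c (x (i + t))` for `i < t` has
`x i = x (i + t)` for `i < t`. -/
def Boring {V : Type} (G : SimpleGraph V) (N : ℕ) : Prop :=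
  ∃ c : V → Fin N, ∀ (t : ℕ) (x : ℕ → V),
    (∀ i, i + 1 < 2 * t → x i = x (i + 1) ∨ G.Adj (x i) (x (i + 1))) →
    (∀ i < t, c (x i) = c (x (i + t))) → ∀ i < t, x i = x (i + t)

/-- `tower g n`: a tower of `n` twos with `g` on top -/
def tower (g : ℕ) : ℕ → ℕ
  | 0 => g
  | n + 1 => 2 ^ tower g n

/-- `8 (a + 1) a` with `a = (Δ + 1) ^ 2 + 1` (number of colours of an auxiliary colouring) -/
def aux (Δ : ℕ) : ℕ := 8 * ((Δ + 1) ^ 2 + 1 + 1) * ((Δ + 1) ^ 2 + 1)

/-- the number of colours for maximum degree `Δ` and `L` levels -/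
def num (Δ L : ℕ) : ℕ :=
  aux Δ * (2 * (aux Δ * (1600 * (2 ^ (4 * (L + 1)) * (Δ + 2) ^ (11 * 3 ^ L)) ^ (L + 7))) ^ 4)
    ^ (L + 1)

/-- cycles of length less than `g` with a common vertex have the same edges -/
def ShortCyclesDisjoint {V : Type} (G : SimpleGraph V) (g : ℕ) : Prop :=
  ∀ (u v : V) (p : G.Walk u u) (q : G.Walk v v), p.IsCycle → q.IsCycle → p.length < g →
    q.length < g → (∃ w, w ∈ p.support ∧ w ∈ q.support) → ∀ e, e ∈ p.edges → e ∈ q.edges

theorem tower_eq (g n : ℕ) : tower g n = Pool.Agent.LSN.tw n g := by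
  induction n with
  | zero => rfl
  | succ n ih =>
    simp only [tower, Pool.Agent.LSN.tw]
    rw [ih]

/-- Let `|V(G)|` be at most a tower of `L + 1` twos with `g` on top. If `g = 1` (no further
hypothesis on `G`), or if the cycles of length less than `g` are pairwise vertex-disjoint, then
`G` has a boring colouring with `num Δ L` colours, and every blow-up `G[K_k]` has a nonrepetitive
colouring with `k * num Δ L` colours. -/
theorem result :
    ∀ (V : Type) [Fintype V] (G : SimpleGraph V) (Δ L g : ℕ), 1 ≤ L → 1 ≤ g →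
      (∀ x, (G.neighborSet x).ncard ≤ Δ) → Fintype.card V ≤ tower g (L + 1) →
      (g = 1 ∨ ShortCyclesDisjoint G g) →
      Boring G (num Δ L) ∧
      ∀ k : ℕ, ∃ c : V × Fin k → Fin (k * num Δ L),
        ∀ (a b : V × Fin k)
          (p : (SimpleGraph.fromRel (fun x y : V × Fin k => G.Adj x.1 y.1 ∨ x.1 = y.1)).Walk a b),
          p.IsPath → ∀ t : ℕ, 0 < t → p.support.length = 2 * t →
            (p.support.map c).take t ≠ (p.support.map c).drop t := by
  intro V _ G Δ L g hL hg hΔ hV hd
  have h1 : Pool.Agent.CayNR.ShortCyclesDisjoint G g := by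
    rcases hd with rfl | hd
    · intro u v p q hp hq hl
      have := hp.three_le_length
      omega
    · exact hd
  have h2 : Boring G (num Δ L) :=
    Pool.Agent.LSN.disjoint_cycles G Δ L g hL hg hΔ h1 (by rw [← tower_eq]; exact hV)
  exact ⟨h2, fun k => Pool.Agent.CayNR.blowup G (num Δ L) h2 k⟩

end Pool.Agent.Results.MP_e379d7_co.LogStar
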