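import Pool.Agent.THL.Main

set_option autoImplicit false

/-!
# MP_e379d7_co: lower bounds for nonrepetitive colourings of graphs and of their blow-ups

All definitions used in the statement are in this file.
-/

namespace Pool.Agent.Results.MP_e379d7_co.QuadraticLowerBound

/-- `c` is a nonrepetitive colouring of `H`. -/
def Nonrep {V α : Type} (H : SimpleGraph V) (c : V → α) : Prop :=
  ∀ (a b : V) (p : H.Walk a b), p.IsPath → ∀ t : ℕ, 0 < t → p.support.length = 2 * t →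
    (p.support.map c).take t ≠ (p.support.map c).drop t

/-- the blow-up `G[E_k]` -/
def EB {V : Type} (G : SimpleGraph V) (k : ℕ) : SimpleGraph (V × Fin k) where
  Adj x y := G.Adj x.1 y.1
  symm := ⟨fun _ _ h => SimpleGraph.Adj.symm h⟩
  loopless := ⟨fun _ h => G.loopless.irrefl _ h⟩

/-- the blow-up `G[K_k]` -/
def KB {V : Type} (G : SimpleGraph V) (k : ℕ) : SimpleGraph (V × Fin k) :=
  SimpleGraph.fromRel fun x y => G.Adj x.1 y.1 ∨ x.1 = y.1

/-- For every `δ > 0` and every large `Δ` there is a finite graph `G` of maximum degree at most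
`Δ` such that every nonrepetitive colouring of `G` has at least `(1 - δ) Δ ^ 2` colours and, for
every `k`, every nonrepetitive colouring of `G[E_k]` or of `G[K_k]` has at least
`(1 - δ) k Δ ^ 2` colours. -/
theorem result :
    ∀ δ : ℝ, 0 < δ → ∃ Δ₀ : ℕ, ∀ Δ : ℕ, Δ₀ ≤ Δ →
      ∃ (n : ℕ) (G : SimpleGraph (Fin n)), (∀ v, (G.neighborSet v).ncard ≤ Δ) ∧
        (∀ (M : ℕ) (c : Fin n → Fin M), Nonrep G c → (1 - δ) * Δ ^ 2 ≤ M) ∧
        (∀ (k M : ℕ) (c : Fin n × Fin k → Fin M), Nonrep (EB G k) c →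
          (1 - δ) * k * Δ ^ 2 ≤ M) ∧
        (∀ (k M : ℕ) (c : Fin n × Fin k → Fin M), Nonrep (KB G k) c →
          (1 - δ) * k * Δ ^ 2 ≤ M) := by
  intro δ hδ
  obtain ⟨D, hD⟩ := Pool.Agent.THL.p_MAIN δ hδ
  refine ⟨D, fun Δ hΔ => ?_⟩
  obtain ⟨n, G, h1, h2, h3⟩ := hD Δ hΔ
  refine ⟨n, G, h1, fun M c hc => ?_, h2, h3⟩
  have h4 := h2 1 M (fun q => c q.1) (Pool.Agent.THL.nonrep_one G c hc)
  simpa using h4

end Pool.Agent.Results.MP_e379d7_co.QuadraticLowerBound
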