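import Pool.Agent.SXG.J48

set_option autoImplicit false

/-!
# MP_e379d7_co: blow-ups `G[K_k]` of graphs of growth `2 ^ (k / 22 ^ (log* k))`

All definitions used in the statement are in this file.
-/

namespace Pool.Agent.Results.MP_e379d7_co.SubexponentialGrowth

/-- `G` has a colouring with `N` colours such that a stroll `x 0, ..., x (2 t - 1)` (consecutive
vertices are equal or adjacent) with `c (x i) = c (x (i + t))` for `i < t` has
`x i = x (i + t)` for `i < t`. -/
def Boring {V : Type} (G : SimpleGraph V) (N : ℕ) : Prop :=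
  ∃ c : V → Fin N, ∀ (t : ℕ) (x : ℕ → V),
    (∀ i, i + 1 < 2 * t → x i = x (i + 1) ∨ G.Adj (x i) (x (i + 1))) →
    (∀ i < t, c (x i) = c (x (i + t))) → ∀ i < t, x i = x (i + t)

/-- every blow-up `G[K_k]` has a nonrepetitive colouring with `k * N` colours -/
def BlowUps {V : Type} (G : SimpleGraph V) (N : ℕ) : Prop :=
  ∀ k : ℕ, ∃ c : V × Fin k → Fin (k * N),
    ∀ (a b : V × Fin k)
      (p : (SimpleGraph.fromRel (fun x y : V × Fin k => G.Adj x.1 y.1 ∨ x.1 = y.1)).Walk a b),
      p.IsPath → ∀ t : ℕ, 0 < t → p.support.length = 2 * t →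
        (p.support.map c).take t ≠ (p.support.map c).drop t

/-- `tower g n`: a tower of `n` twos with `g` on top -/
def tower (g : ℕ) : ℕ → ℕ
  | 0 => g
  | n + 1 => 2 ^ tower g n

/-- number of vertices at distance at most `k` from `v` -/
noncomputable def ball {V : Type} (G : SimpleGraph V) (v : V) (k : ℕ) : ℕ :=
  {u | ∃ p : G.Walk v u, p.length ≤ k}.ncard

theorem tower_eq (g n : ℕ) : tower g n = Pool.Agent.LSN.tw n g := by
  induction n with
  | zero => rfl
  | succ n ih =>
    simp only [tower, Pool.Agent.LSN.tw]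
    rw [ih]

/-- For all `Δ`, `k0` there is `N` such that every finite graph `G` of maximum degree at most
`Δ`, in which every ball of radius `k` has at most `2 ^ (k / 22 ^ n)` vertices whenever
`k ≥ tower k0 n`, has a boring colouring with `N` colours, and all blow-ups `G[K_k]` have
nonrepetitive colourings with `k * N` colours. -/
theorem result :
    ∀ Δ k0 : ℕ, ∃ N : ℕ, ∀ (V : Type) [Fintype V] (G : SimpleGraph V),
      (∀ x, (G.neighborSet x).ncard ≤ Δ) →
      (∀ (v : V) (n k : ℕ), tower k0 n ≤ k → ball G v k ^ (22 ^ n) ≤ 2 ^ k) →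
      Boring G N ∧ BlowUps G N := by
  intro Δ k0
  obtain ⟨N, hN⟩ := Pool.Agent.SXG.T49 Δ k0
  refine ⟨N, fun V _ G hΔ hgr => ?_⟩
  have h2 : Boring G N := hN V G hΔ (fun v n k hk => hgr v n k (by rw [tower_eq]; exact hk))
  exact ⟨h2, fun k => Pool.Agent.CayNR.blowup G N h2 k⟩

end Pool.Agent.Results.MP_e379d7_co.SubexponentialGrowth
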